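import Pool.Agent.H17.AH.TargetsA
import Pool.Agent.H30.VM.TargetsB
import Pool.Agent.H30.VM.TargetsD
import Pool.Agent.H30.VMP.GT
import Pool.Agent.H17.CI.DT
import Pool.Agent.H27.LV.Gen
import Pool.Agent.H27.LV.Targets2

/-!
Row D3T of the board ahy_modules (MP_70ba79_ag): the height inequality in the border case, for
families of forms.
-/

set_option autoImplicit false

namespace Pool.Agent.H3.AH

open MvPolynomial SC Pool.Agent.H27.LV Pool.Agent.H17.VG
open Pool.Agent.H17.CI (Tup IlT PQT TxT frmT upT RatT exists_J inj_of_det ge_div)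
open Pool.Agent.H30.VM Pool.Agent.H17.BO Pool.Agent.H17.AH
open Pool.Agent.H30.VMP (sym_sum)

/-! ### Linearity -/

section Lin

variable {K : Type} [Field K] {n : ℕ}

/-- the functional `fnl y` as a linear map -/
private noncomputable def fL {d : ℕ} (y : Mon (n + 1) d → K) :
    MvPolynomial (Fin (n + 1)) K →ₗ[K] K := ∑ M, y M • lcoeff K (fs M.1)

private lemma fL_apply {d : ℕ} (y : Mon (n + 1) d → K) (G : MvPolynomial (Fin (n + 1)) K) :
    fL y G = fnl y G := by
  unfold fL fnl
  rw [LinearMap.sum_apply]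
  refine Finset.sum_congr rfl fun M _ => ?_
  rw [LinearMap.smul_apply, lcoeff_apply, smul_eq_mul]

private lemma fnl_lin {d : ℕ} (y : Mon (n + 1) d → K) (ξ : Fin (n + 1) → K)
    (G : MvPolynomial (Fin (n + 1)) K) :
    fnl y (lin ξ * G) = ∑ i, ξ i * fnl y (X i * G) := by
  rw [← fL_apply]
  unfold lin
  rw [Finset.sum_mul, map_sum]
  refine Finset.sum_congr rfl fun i _ => ?_
  rw [mul_assoc, ← smul_eq_C_mul, map_smul, smul_eq_mul, fL_apply]

variable {ι : Type} [Fintype ι] {e : ι → ℕ}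

/-- the functional `fnT y` as a linear map -/
private noncomputable def fTL (y : (Σ i, Mon (n + 1) (e i + 1)) → K) : Tup ι K n →ₗ[K] K :=
  ∑ i, (fL fun M => y ⟨i, M⟩) ∘ₗ LinearMap.proj i

private lemma fTL_apply (y : (Σ i, Mon (n + 1) (e i + 1)) → K) (G : Tup ι K n) :
    fTL y G = fnT y G := by
  unfold fTL fnT
  rw [LinearMap.sum_apply]
  refine Finset.sum_congr rfl fun i _ => ?_
  rw [LinearMap.comp_apply, LinearMap.proj_apply, fL_apply]

private lemma fnT_lin (y : (Σ i, Mon (n + 1) (e i + 1)) → K) (ξ : Fin (n + 1) → K)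
    (G : Tup ι K n) :
    fnT y (fun i => lin ξ * G i) = ∑ j, ξ j * fnT y (fun i => X j * G i) := by
  unfold fnT
  simp only [fnl_lin, Finset.mul_sum]
  rw [Finset.sum_comm]

end Lin

/-! ### Linear algebra -/

private lemma dep3 {K : Type} [Field K] {n : ℕ} (x Y0 Y1 : Fin (n + 1) → K) (p : Fin (n + 1))
    (hp : x p = 1)
    (h : ∀ a : Fin 3 → Fin (n + 1), (Matrix.of fun t r : Fin 3 =>
      (![x (a t), Y0 (a t), Y1 (a t)] : Fin 3 → K) r).det = 0) :
    ∃ c c0 c1 : K, (c0 ≠ 0 ∨ c1 ≠ 0) ∧ ∀ i, c * x i + c0 * Y0 i + c1 * Y1 i = 0 := by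
  by_cases hm : ∃ a b, x a * Y0 b - x b * Y0 a ≠ 0
  · obtain ⟨a, b, hab⟩ := hm
    refine ⟨Y0 a * Y1 b - Y1 a * Y0 b, -(x a * Y1 b - x b * Y1 a), x a * Y0 b - x b * Y0 a,
      Or.inr hab, fun j => ?_⟩
    have h1 := h ![a, b, j]
    rw [Matrix.det_fin_three] at h1
    simp only [Matrix.of_apply, Matrix.cons_val_zero, Matrix.cons_val_one, Matrix.cons_val] at h1
    linear_combination h1
  · push Not at hm
    refine ⟨-Y0 p, 1, 0, Or.inl one_ne_zero, fun j => ?_⟩
    have h1 := hm p j
    rw [hp] at h1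
    linear_combination h1

/-- a linear form which vanishes on the tangent space is a combination of the gradients -/
private lemma comb {K : Type} [Field K] {n : ℕ} {ι : Type} {Z : Finset ι}
    (g : Z → Fin (n + 1) → K) (φ : Fin (n + 1) → K)
    (h : ∀ w : Fin (n + 1) → K, (∀ i, ∑ j, w j * g i j = 0) → ∑ j, φ j * w j = 0) :
    ∃ c : Z → K, φ = ∑ i, c i • g i := by
  classical
  have h1 : (⨅ i : Z, LinearMap.ker (∑ j, g i j • (LinearMap.proj j : (Fin (n + 1) → K) →ₗ[K] K)))
      ≤ LinearMap.ker (∑ j, φ j • (LinearMap.proj j : (Fin (n + 1) → K) →ₗ[K] K)) := by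
    intro w hw
    rw [Submodule.mem_iInf] at hw
    rw [LinearMap.mem_ker, LinearMap.sum_apply]
    simp only [LinearMap.smul_apply, LinearMap.proj_apply, smul_eq_mul]
    refine h w fun i => ?_
    have h2 := hw i
    rw [LinearMap.mem_ker, LinearMap.sum_apply] at h2
    simp only [LinearMap.smul_apply, LinearMap.proj_apply, smul_eq_mul] at h2
    rw [← h2]
    exact Finset.sum_congr rfl fun j _ => mul_comm _ _
  have h2 := mem_span_of_iInf_ker_le_ker h1
  rw [Submodule.mem_span_range_iff_exists_fun] at h2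
  obtain ⟨c, hc⟩ := h2
  refine ⟨c, ?_⟩
  funext a
  have h3 := congrArg (fun f : (Fin (n + 1) → K) →ₗ[K] K => f (Pi.single a 1)) hc
  simp only [LinearMap.sum_apply, LinearMap.smul_apply, LinearMap.proj_apply, smul_eq_mul] at h3
  rw [Finset.sum_apply]
  have h4 : ∀ φ' : Fin (n + 1) → K, ∑ j, φ' j * (Pi.single a (1 : K) : Fin (n + 1) → K) j =
      φ' a := by
    intro φ'
    rw [Finset.sum_eq_single a (fun j _ hj => by
      rw [Pi.single_eq_of_ne hj, mul_zero]) (fun h => absurd (Finset.mem_univ a) h),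
      Pi.single_eq_same, mul_one]
  rw [h4] at h3
  rw [← h3]
  refine Finset.sum_congr rfl fun i _ => ?_
  rw [h4, Pi.smul_apply, smul_eq_mul]

/-! ### Degrees -/

private lemma poleOrder_sub {k K : Type} [Field k] [Field K] [Algebra k K] {σ τ : Type}
    [Fintype σ] [Fintype τ] (v : DV k K) (z : σ → K) (z' : τ → K)
    (h : ∀ j, ∃ j', z j = z' j') : poleOrder v z ≤ poleOrder v z' := by
  unfold poleOrder
  refine Finset.sup_le fun j _ => ?_
  obtain ⟨j', hj'⟩ := h j
  rw [hj']
  exact Finset.le_sup (f := fun i => (-(v.ord (z' i))).toNat) (Finset.mem_univ j')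

private lemma deg_sub (hPFI : T_PFI) {k K : Type} [Field k] [IsAlgClosed k] [CharZero k]
    [Field K] [Algebra k K] [Algebra.EssFiniteType k K] (htr : Algebra.trdeg k K = 1)
    {σ τ : Type} [Fintype σ] [Fintype τ] (z : σ → K) (z' : τ → K)
    (h : ∀ j, ∃ j', z j = z' j') : deg k z ≤ deg k z' := by
  classical
  unfold deg
  have f1 : (Function.support fun v : DV k K => poleOrder v z).Finite :=
    (hPFI k K htr _ z).subset fun v hv => by simpa using hv
  have f2 : (Function.support fun v : DV k K => poleOrder v z').Finite :=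
    (hPFI k K htr _ z').subset fun v hv => by simpa using hv
  rw [finsum_eq_sum_of_support_subset (s := f1.toFinset ∪ f2.toFinset) _ (by
      intro v hv
      rw [Finset.coe_union, Set.Finite.coe_toFinset]
      exact Or.inl hv),
    finsum_eq_sum_of_support_subset (s := f1.toFinset ∪ f2.toFinset) _ (by
      intro v hv
      rw [Finset.coe_union, Set.Finite.coe_toFinset, Set.Finite.coe_toFinset]
      exact Or.inr hv)]
  exact Finset.sum_le_sum fun v _ => poleOrder_sub v z z' h

/-! ### The theorem -/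

theorem pf_D3T (hNB3 : T_NB3T) (hFNL : T_FNLT) (hDB : T_DBT) (hSU : T_SU4)
    (hOP : Pool.Agent.H17.VG.T_OP) (hPFI : T_PFI) : T_D3T := by
  classical
  intro R k K _ _ _ _ _ _ _ _ htr n s ι _ i₀ e he F hF hNC D D' hD0 hD' hsys hrat Z x p hp hx S
    hS Q q hfin htop
  have hcK : CharZero K := charZero_of_injective_algebraMap (algebraMap k K).injective
  obtain ⟨J, hJ⟩ := exists_J _ hx.grad
  have hJinj : Function.Injective J :=
    inj_of_det (fun (i : Z) (a : Fin (n + 1)) => eval x (pderiv a (upT K F i))) J hJ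
  have hJ' : gJ (upT K F) x J ≠ 0 := by
    unfold gJ
    exact hJ
  -- rational operators
  have hop : ∀ (i : Fin (n + 1)) (q : (Σ i, Mon (n + 1) (e i)) → k),
      ∃ (τ : Op R K n) (l : ι → K), RatT k τ l ∧
      Sym i₀ (upT K F) τ l (fun a => X i * upT K (frmT q) a) := by
    intro i q
    obtain ⟨τ, l, h1, h2⟩ := hrat (fun a => X i * frmT q a) (by
      intro a
      have := (isHomogeneous_X k i).mul (frm_homog fun M => q ⟨a, M⟩)
      rw [Nat.add_comm (e a) 1]
      exact this)
    refine ⟨τ, l, h1, ?_⟩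
    have h3 : (fun a => X i * upT K (frmT q) a) = upT K (fun a => X i * frmT q a) := by
      funext a
      unfold upT up
      rw [map_mul, map_X]
    rw [h3]
    exact h2
  choose τr lr hr1 hr2 using hop
  obtain ⟨T, e0, σ, ν, hσ, hν, hνU, hνx, hνD, hdet⟩ := hNB3 R k K n s ι i₀ e (upT K F) D D' Z x p
    hp hsys hD' hx (fun j => upT K (frmT (Q j))) (fun i j => τr i (Q j)) (fun i j => lr i (Q j))
    (fun i j => hr2 i (Q j)) hfin J hJ'
  have hνD' : ∀ b, ∑ i, ν b i * D' (x i) = 0 := by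
    intro b
    simp only [hD']
    exact hνD b
  choose y hy1 hy2 hy3 using fun b : Fin 2 => hFNL R K n ι i₀ e (upT K F) D' x (ν b) hsys
    (hνx b) (hνD' b)
  -- the determinants
  obtain ⟨Pd, hPd⟩ : ∃ Pd : ((Σ i, Mon (n + 1) (e i)) → k) → (Fin 3 → Fin (n + 1)) → K,
      Pd = fun f a =>
      ((bigP D x (Sum.elim (fun c : T => τr c.1.1 (Q c.1.2)) (fun t : Fin 3 => τr (a t) f))
        (Sum.elim (fun c => c.1.1) (fun t : Fin 3 => a t))
        (Sum.elim (fun c => c.1.2.castSucc) (fun _ => Fin.last s)) J).submatrix e0 id).det :=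
    ⟨_, rfl⟩
  have hPv : ∀ f a, Pd f a = σ * det3T x y (upT K (frmT f)) a := by
    intro f a
    have e1 : ∀ b i, ∑ l, ν b l * opV (τr i f) x l =
        fnT (y b) (fun a => X i * upT K (frmT f) a) := by
      intro b i
      rw [hy1 b _ _ _ (hr2 i f)]
    have h1 := hdet (fun i => τr i f) a
    simp only [e1] at h1
    rw [hPd]
    exact h1
  -- one of them does not vanish
  have hne : ∃ a0 : Fin 3 → Fin (n + 1), det3T x y (upT K (frmT q)) a0 ≠ 0 := by
    by_contra hcon
    push Not at hcon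
    obtain ⟨c, c0, c1, hc, hrel⟩ := dep3 x (fun i => fnT (y 0) (fun a => X i * upT K (frmT q) a))
      (fun i => fnT (y 1) (fun a => X i * upT K (frmT q) a)) p hp (fun a => hcon a)
    have hφ : PQT x (Sum.elim (fun j => upT K (frmT (Q j))) fun _ : Unit => upT K (frmT q)) ≤
        LinearMap.ker (c0 • fTL (y 0) + c1 • fTL (y 1)) := by
      refine Submodule.span_le.2 ?_
      rintro G ⟨ξ, j, hξ, rfl⟩
      rw [SetLike.mem_coe, LinearMap.mem_ker, LinearMap.add_apply, LinearMap.smul_apply,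
        LinearMap.smul_apply, fTL_apply, fTL_apply, smul_eq_mul, smul_eq_mul]
      rcases j with j | j
      · have h0 : ∀ b, fnT (y b) (fun i => lin ξ * upT K (frmT (Q j)) i) = 0 := by
          intro b
          have e1 := sym_sum hOP Finset.univ ξ (fun i => τr i (Q j)) (fun i => lr i (Q j))
            (fun i a => X i * upT K (frmT (Q j)) a) (fun i _ => hr2 i (Q j))
          have e2 : (fun a => ∑ i, C (ξ i) * (X i * upT K (frmT (Q j)) a)) =
              fun a => lin ξ * upT K (frmT (Q j)) a := by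
            funext a
            unfold lin
            rw [Finset.sum_mul]
            refine Finset.sum_congr rfl fun i _ => ?_
            rw [mul_assoc]
          rw [e2] at e1
          rw [hy1 b _ _ _ e1]
          exact hνU b _ (Submodule.subset_span (Or.inl
            ⟨_, _, _, Submodule.subset_span ⟨ξ, j, hξ, rfl⟩, e1, rfl⟩))
        rw [Sum.elim_inl, h0, h0, mul_zero, mul_zero, add_zero]
      · rw [Sum.elim_inr, fnT_lin, fnT_lin, Finset.mul_sum, Finset.mul_sum,
          ← Finset.sum_add_distrib]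
        have e1 : ∀ i, c0 * (ξ i * fnT (y 0) (fun a => X i * upT K (frmT q) a)) +
            c1 * (ξ i * fnT (y 1) (fun a => X i * upT K (frmT q) a)) = -c * (ξ i * x i) := by
          intro i
          linear_combination ξ i * hrel i
        simp only [e1]
        rw [← Finset.mul_sum, hξ, mul_zero]
    have hsplit : ∀ w : Fin (n + 1) → K, ∑ i, (c0 * ν 0 i + c1 * ν 1 i) * w i =
        c0 * (∑ i, ν 0 i * w i) + c1 * ∑ i, ν 1 i * w i := by
      intro w
      rw [Finset.mul_sum, Finset.mul_sum, ← Finset.sum_add_distrib]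
      exact Finset.sum_congr rfl fun i _ => by ring
    -- the functional on vectors
    obtain ⟨ψ, hψ⟩ : ∃ ψ : (Fin (n + 1) → K) →ₗ[K] K, ∀ w, ψ w =
        ∑ i, (c0 * ν 0 i + c1 * ν 1 i) * w i :=
      ⟨∑ i, (c0 * ν 0 i + c1 * ν 1 i) • LinearMap.proj i, fun w => by
        rw [LinearMap.sum_apply]
        rfl⟩
    have hker : UtT R i₀ (upT K F) x (PQT x (Sum.elim (fun j => upT K (frmT (Q j)))
        fun _ : Unit => upT K (frmT q))) ≤ LinearMap.ker ψ := by
      refine Submodule.span_le.2 ?_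
      rintro w (⟨τ, l, G, hG, hsym, rfl⟩ | hw)
      · have h1 := hφ hG
        rw [LinearMap.mem_ker, LinearMap.add_apply, LinearMap.smul_apply,
          LinearMap.smul_apply, fTL_apply, fTL_apply, smul_eq_mul, smul_eq_mul,
          hy1 0 _ _ _ hsym, hy1 1 _ _ _ hsym] at h1
        rw [SetLike.mem_coe, LinearMap.mem_ker, hψ, hsplit]
        exact h1
      · rw [Set.mem_singleton_iff] at hw
        rw [SetLike.mem_coe, LinearMap.mem_ker, hψ, hsplit, hw, hνx, hνx, mul_zero, mul_zero,
          add_zero]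
    rw [htop] at hker
    obtain ⟨d, hd⟩ := comb (Z := Z) (fun (i : Z) (a : Fin (n + 1)) =>
      eval x (pderiv a (upT K F i))) (fun i => c0 * ν 0 i + c1 * ν 1 i) (by
        intro w hw
        rw [← hψ]
        exact hker (show w ∈ TxT Z (upT K F) x from fun i hi => hw ⟨i, hi⟩))
    have h2 := Fintype.linearIndependent_iff.1 hν (Sum.elim ![c0, c1] fun i => -d i) (by
      rw [Fintype.sum_sum_type, Fin.sum_univ_two]
      simp only [Sum.elim_inl, Sum.elim_inr, neg_smul, Finset.sum_neg_distrib]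
      rw [← hd]
      funext i
      simp)
    rcases hc with hc | hc
    · exact hc (h2 (Sum.inl 0))
    · exact hc (h2 (Sum.inl 1))
  obtain ⟨a0, ha0⟩ := hne
  refine ⟨y, ν, ⟨hν, fun b j a => hy2 b j a, fun b i => hy3 b i, hνx⟩, a0, ha0, ?_⟩
  intro κ _ f a
  obtain ⟨u, hu⟩ : ∃ u : K, u = ∏ a ∈ Finset.univ \ Z, eval x (upT K F a) := ⟨_, rfl⟩
  have hu1 : ∀ a ∈ Finset.univ \ Z, eval x (upT K F a) ≠ 0 := by
    intro a ha h0
    exact (Finset.mem_sdiff.1 ha).2 ((hx.on a).1 h0)
  have hu0 : u ≠ 0 := by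
    rw [hu]
    exact Finset.prod_ne_zero_iff.2 hu1
  have huv : ∀ v : DV k K, v.ord u = ∑ a ∈ Finset.univ \ Z, v.ord (eval x (upT K F a)) := by
    intro v
    rw [hu]
    exact v.ord_prod _ _ hu1
  obtain ⟨g, hg⟩ : ∃ g : K, g = gJ (upT K F) x J := ⟨_, rfl⟩
  have hg0 : g ≠ 0 := by rw [hg]; exact hJ'
  have hB := fun (v : DV k K) (h : (Σ i, Mon (n + 1) (e i)) → k) (b : Fin 3 → Fin (n + 1)) =>
    hDB R k K htr n (s + 1) ι i₀ e F hF hNC D hD0 Z x p hp hx.on
      (fun j => frmT ((Fin.snoc (α := fun _ => (Σ i, Mon (n + 1) (e i)) → k) Q h :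
        Fin (s + 1) → (Σ i, Mon (n + 1) (e i)) → k) j)) (T ⊕ Fin 3)
      (Sum.elim (fun c : T => τr c.1.1 (Q c.1.2)) (fun t : Fin 3 => τr (b t) h))
      (Sum.elim (fun c : T => lr c.1.1 (Q c.1.2)) (fun t : Fin 3 => lr (b t) h))
      (Sum.elim (fun c => c.1.1) (fun t : Fin 3 => b t))
      (Sum.elim (fun c => c.1.2.castSucc) (fun _ => Fin.last s)) J e0
      (by rintro (c | t) <;> exact hr1 _ _) (by
        rintro (c | t)
        · simp only [Sum.elim_inl, Fin.snoc_castSucc]
          exact hr2 _ _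
        · simp only [Sum.elim_inr, Fin.snoc_last]
          exact hr2 _ _) hJinj hJ' v
  rw [← hg] at hB
  have h1 := hSU k K htr n ((n : ℤ) + 1 + (s + 1 : ℕ) - Z.card)
    (((∑ a, (e a + 1) : ℕ) : ℤ) - Z.card) D hD0 x u hu0 S
    (Option κ) (fun o => Pd (o.elim q f) (o.elim a0 a) / g) none
    (div_ne_zero (by
      rw [hPv]
      exact mul_ne_zero hσ ha0) hg0)
    (fun v o hv => by
      refine ge_div hg0 ?_ le_rfl
      rw [hPd]
      refine (congrArg (fun t => ge v t _) ?_).mp ((hB v _ _).2 (hS v hv))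
      rw [huv]
      ring)
    (fun v o => by
      refine ge_div hg0 ?_ le_rfl
      rw [hPd]
      refine (congrArg (fun t => ge v t _) ?_).mp (hB v _ _).1
      rw [huv]
      ring)
  have h4 : (((∑ a, (e a + 1) : ℕ) : ℤ) - Z.card) - ((n : ℤ) + 1 + (s + 1 : ℕ) - Z.card) = 0 := by
    rw [he]
    push_cast
    ring
  rw [h4, zero_mul, add_zero] at h1
  refine le_trans ?_ h1
  have h5 : deg k (fun c : κ => det3T x y (upT K (frmT (f c))) (a c) /
      det3T x y (upT K (frmT q)) a0) ≤ deg k (fun c : Option κ =>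
        Pd (c.elim q f) (c.elim a0 a) / g /
        (Pd ((none : Option κ).elim q f) ((none : Option κ).elim a0 a) / g)) := by
    refine deg_sub hPFI htr _ _ fun c => ⟨some c, ?_⟩
    rw [div_div_div_cancel_right₀ hg0, hPv, hPv, mul_div_mul_left _ _ hσ]
    rfl
  exact_mod_cast h5

end Pool.Agent.H3.AH
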